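import Mathlib
import Pool.Agent.Helper61.ML.Fin

set_option autoImplicit false

open Polynomial MeasureTheory intervalIntegral

namespace Pool.Agent.Results.MP_c605fa_an.MinArcAllDegrees

/-- The class `M_n`: real monic polynomials of degree `n` all of whose zeros are real and lie
in `[-1,1]`, repeated zeros allowed. -/
def Mclass (n : ℕ) : Set ℝ[X] :=
  {P | ∃ x : Fin n → ℝ, (∀ i, x i ∈ Set.Icc (-1 : ℝ) 1) ∧ P = ∏ i, (X - C (x i))}

/-- Length of the graph of `P` over `[-1,1]`. -/
noncomputable def arcLength (P : ℝ[X]) : ℝ :=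
  ∫ x in (-1 : ℝ)..1, Real.sqrt (1 + (P.derivative.eval x) ^ 2)

/-- `P` is monic of degree `n`, normalised by `P(-1) = -P(1)`, and its derivative `Q = P'` solves
the `n - 1` equations `∫ x^k Q / √(1 + Q²) dx = 0` over `[-1,1]`, `k = 0, ..., n - 2`. -/
def Critical (n : ℕ) (P : ℝ[X]) : Prop :=
  P.Monic ∧ P.natDegree = n ∧ P.eval (-1) = - P.eval 1 ∧
    ∀ k : ℕ, k + 1 < n → ∫ x in (-1 : ℝ)..1, x ^ k * (P.derivative.eval x
      / Real.sqrt (1 + (P.derivative.eval x) ^ 2)) = 0

/-- The Legendre polynomials, by their three term recurrence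
`(n+2) L_{n+2} = (2n+3) x L_{n+1} - (n+1) L_n`. -/
noncomputable def legendre : ℕ → ℝ[X]
  | 0 => 1
  | 1 => X
  | (n + 2) => C (1 / ((n : ℝ) + 2)) *
      (C (2 * (n : ℝ) + 3) * X * legendre (n + 1) - C ((n : ℝ) + 1) * legendre n)

/-- `α_n = n 2^(n-1) / binom(2n-2, n-1)`, which makes `α_n L_{n-1}` have leading coefficient `n`. -/
noncomputable def alpha (n : ℕ) : ℝ :=
  (n : ℝ) * 2 ^ (n - 1) / (Nat.centralBinom (n - 1) : ℝ)

/-- The monic multiple `W_n` of `(x² - 1) L_{n-1}'(x)`. -/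
noncomputable def W (n : ℕ) : ℝ[X] :=
  C (alpha n / ((n : ℝ) * ((n : ℝ) - 1))) * ((X ^ 2 - 1) * derivative (legendre (n - 1)))

lemma legendre_eq (n : ℕ) : legendre n = Helper61.ML.leg n ∧
    legendre (n + 1) = Helper61.ML.leg (n + 1) := by
  induction n with
  | zero => exact ⟨rfl, rfl⟩
  | succ n ih =>
    refine ⟨ih.2, ?_⟩
    rw [Helper61.ML.leg_rec, legendre, ih.1, ih.2]

lemma alpha_eq (l : ℕ) : alpha (l + 1) = Helper61.ML.al l := by
  rw [Helper61.ML.al_eq]
  unfold alpha
  simp only [Nat.add_sub_cancel]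
  push_cast
  rfl

lemma W_eq (l : ℕ) : W (l + 1) = Helper61.ML.P0 l := by
  unfold W Helper61.ML.P0
  rw [alpha_eq]
  simp only [Nat.add_sub_cancel, (legendre_eq l).1]
  have e : Helper61.ML.al l / (((l + 1 : ℕ) : ℝ) * (((l + 1 : ℕ) : ℝ) - 1))
      = Helper61.ML.al l / Helper61.ML.lam l := by
    unfold Helper61.ML.lam
    push_cast
    congr 1
    ring
  rw [e, C_neg]
  ring

lemma critical_iff {l : ℕ} {P : ℝ[X]} : Critical (l + 1) P ↔
    Helper61.ML.Sol l (derivative P) ∧ P.eval (-1) = - P.eval 1 := by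
  constructor
  · rintro ⟨hm, hd, hc, ho⟩
    refine ⟨⟨?_, ?_, ?_⟩, hc⟩
    · rw [coeff_derivative]
      have : P.coeff (l + 1) = 1 := by rw [← hd]; exact hm
      rw [this, one_mul]
    · intro m hml
      rw [coeff_derivative, coeff_eq_zero_of_natDegree_lt (by rw [hd]; omega), zero_mul]
    · intro k hk
      exact ho k (by omega)
  · rintro ⟨hs, hc⟩
    obtain ⟨hm, hd⟩ := Helper61.ML.monic_of_sol hs rfl
    exact ⟨hm, hd, hc, fun k hk => hs.2.2 k (by omega)⟩

lemma Mclass_monic {n : ℕ} {P : ℝ[X]} (h : P ∈ Mclass n) : P.Monic ∧ P.natDegree = n := by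
  obtain ⟨x, _, rfl⟩ := h
  refine ⟨monic_prod_of_monic _ _ fun i _ => monic_X_sub_C _, ?_⟩
  rw [natDegree_prod_of_monic _ _ fun i _ => monic_X_sub_C _]
  simp

/-- **The minimisers of arc length, for every degree `n ≥ 2`.** -/
theorem result : ∀ n : ℕ, 2 ≤ n → ∃ P : ℝ[X],
    -- `P = P_n` is the unique solution of the system
    (Critical n P ∧ ∀ P' : ℝ[X], Critical n P' → P' = P) ∧
    (∀ x : ℝ, P.eval (-x) = (-1) ^ n * P.eval x) ∧
    -- `P_n` belongs to `M_n`, and it is minimal among all monic polynomials of degree `n`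
    P ∈ Mclass n ∧
    (∀ F : ℝ[X], F.Monic → F.natDegree = n → arcLength P ≤ arcLength F ∧
      (arcLength F = arcLength P ↔ derivative F = derivative P)) ∧
    -- the minimisers over `M_n` are exactly the members of `M_n` that differ from `P_n` by a
    -- constant
    (∀ F ∈ Mclass n, (∀ G ∈ Mclass n, arcLength F ≤ arcLength G) ↔ ∃ c : ℝ, F = P + C c) ∧
    -- location of the zeros: simple, in `[-1,1]`, within `α_n²` of those of `(x² - 1) L_{n-1}'`
    (∃ x w : Fin n → ℝ, StrictMono x ∧ StrictMono w ∧ (∀ i, x i ∈ Set.Icc (-1 : ℝ) 1) ∧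
      P = ∏ i, (X - C (x i)) ∧ W n = ∏ i, (X - C (w i)) ∧ ∀ i, |x i - w i| ≤ alpha n ^ 2) ∧
    (∀ x ∈ Set.Icc (-1 : ℝ) 1, |P.eval x - (W n).eval x| ≤ alpha n ^ 3 / (2 * Real.sqrt n)) ∧
    -- the value of the minimum
    2 + (alpha n ^ 2 - 2 / 5 * alpha n ^ 4) / (2 * (n : ℝ) - 1) ≤ arcLength P ∧
    arcLength P ≤ 2 + alpha n ^ 2 / (2 * (n : ℝ) - 1) ∧
    -- `α_n²` is exponentially small
    alpha n ^ 2 ≤ 16 * (n : ℝ) ^ 2 * ((n : ℝ) - 1) / 4 ^ n := by
  intro n hn
  obtain ⟨l, rfl⟩ : ∃ l, n = l + 1 := ⟨n - 1, by omega⟩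
  have hl : 1 ≤ l := by omega
  obtain ⟨Q, hQ⟩ := Helper61.ML.sol_exists l
  obtain ⟨P, hP, hc⟩ := Helper61.ML.exists_centered Q
  obtain ⟨hm, hd⟩ := Helper61.ML.monic_of_sol hQ hP
  have hclose := Helper61.ML.close_all hl hQ hP hc
  obtain ⟨x, w, hx1, hw1, hxI, hx, hw, hxw⟩ := hclose
  have hxs := Helper61.ML.lt_of_step hx1
  have hws := Helper61.ML.lt_of_step hw1
  have hmin : ∀ F : ℝ[X], F.Monic → F.natDegree = l + 1 → arcLength P ≤ arcLength F ∧
      (arcLength F = arcLength P ↔ derivative F = derivative P) := by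
    intro F hF hFd
    have h1 : ∀ m, l ≤ m → (derivative F - Q).coeff m = 0 := by
      apply fun h => h
      intro m hml
      rw [coeff_sub, coeff_derivative]
      rcases Nat.eq_or_lt_of_le hml with rfl | h2
      · have : F.coeff (l + 1) = 1 := by rw [← hFd]; exact hF
        rw [this, hQ.1]; ring
      · rw [coeff_eq_zero_of_natDegree_lt (by rw [hFd]; omega), hQ.2.1 m h2]; ring
    have h2 := Helper61.ML.sol_min hQ h1
    have e1 : arcLength P = Helper61.ML.Phi Q := by unfold arcLength Helper61.ML.Phi; rw [hP]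
    have e2 : arcLength F = Helper61.ML.Phi (derivative F) := rfl
    refine ⟨by rw [e1, e2]; exact h2.1, fun h => ?_, fun h => ?_⟩
    · rw [hP]
      apply h2.2
      rw [← e1, ← e2]; exact h
    · unfold arcLength; rw [h]
  have hmem : P ∈ Mclass (l + 1) := by
    refine ⟨fun i => x i, fun i => hxI i (by have := i.2; omega), ?_⟩
    rw [← Finset.prod_range (fun i => X - C (x i))]
    exact hx
  refine ⟨P, ⟨?_, ?_⟩, ?_, hmem, hmin, ?_, ?_, ?_, ?_, ?_, ?_⟩
  · rw [critical_iff, hP]; exact ⟨hQ, hc⟩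
  · intro P' hP'
    rw [critical_iff] at hP'
    have h1 := Helper61.ML.sol_unique hQ hP'.1
    exact Helper61.ML.centered_unique (by rw [hP, h1]) hc hP'.2
  · -- parity
    intro y
    set s : ℝ := (-1) ^ (l + 1) with hs
    have hss : s * s = 1 := by rw [hs, ← mul_pow]; norm_num
    have h1 : C s * P.comp (-X) = P := by
      apply Helper61.ML.centered_unique _ hc
      · simp only [eval_mul, eval_C, eval_comp, eval_neg, eval_X, neg_neg]
        rw [hc]; ring
      · rw [derivative_C_mul, derivative_comp, hP]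
        apply Polynomial.funext
        intro z
        simp only [eval_mul, eval_C, eval_comp, eval_neg, eval_X, derivative_neg, derivative_X,
          eval_one]
        rw [Helper61.ML.sol_parity hQ]
        have e : s = -(-1) ^ l := by rw [hs, pow_succ]; ring
        have e3 : ((-1 : ℝ) ^ l) * (-1) ^ l = 1 := by rw [← mul_pow]; norm_num
        rw [e]
        linear_combination (Q.eval z) * e3
    have h2 := congrArg (fun p => Polynomial.eval y p) h1
    simp only [eval_mul, eval_C, eval_comp, eval_neg, eval_X] at h2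
    rw [← h2, ← mul_assoc, hss, one_mul]
  · -- minimisers over the class
    intro F hF
    obtain ⟨hFm, hFd⟩ := Mclass_monic hF
    constructor
    · intro h
      have h1 := le_antisymm (h P hmem) (hmin F hFm hFd).1
      have h2 := (hmin F hFm hFd).2.1 h1
      have h3 : derivative (F - P) = 0 := by rw [derivative_sub, h2, sub_self]
      obtain ⟨c, hcc⟩ := natDegree_eq_zero.1 (natDegree_eq_zero_of_derivative_eq_zero h3)
      exact ⟨c, by rw [hcc]; ring⟩
    · rintro ⟨c, rfl⟩ G hG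
      obtain ⟨hGm, hGd⟩ := Mclass_monic hG
      have h1 : arcLength (P + C c) = arcLength P := by
        unfold arcLength
        simp
      rw [h1]
      exact (hmin G hGm hGd).1
  · refine ⟨fun i => x i, fun i => w i, ?_, ?_, ?_, ?_, ?_, ?_⟩
    · intro i j hij
      exact hxs j (by have := j.2; omega) i hij
    · intro i j hij
      exact hws j (by have := j.2; omega) i hij
    · intro i
      exact hxI i (by have := i.2; omega)
    · rw [← Finset.prod_range (fun i => X - C (x i))]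
      exact hx
    · rw [W_eq, ← Finset.prod_range (fun i => X - C (w i))]
      exact hw
    · intro i
      rw [alpha_eq]
      exact hxw i (by have := i.2; omega)
  · intro y hy
    rw [W_eq, alpha_eq]
    have h1 := Helper61.ML.near_all hl hQ hP hc hy
    have ha := Helper61.ML.al_pos l
    have hn0 : (0 : ℝ) < ((l + 1 : ℕ) : ℝ) := by positivity
    have hs0 : 0 < Real.sqrt ((l + 1 : ℕ) : ℝ) := Real.sqrt_pos.2 hn0
    have hs2 : Real.sqrt ((l + 1 : ℕ) : ℝ) ^ 2 = ((l + 1 : ℕ) : ℝ) := Real.sq_sqrt hn0.le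
    apply abs_le_of_sq_le_sq _ (by positivity)
    refine h1.trans (le_of_eq ?_)
    rw [div_pow, mul_pow, hs2]
    push_cast
    ring
  · have h1 := Helper61.ML.len_lower_all hl hQ hP hc
    have e1 : arcLength P = Helper61.ML.Phi Q := by unfold arcLength Helper61.ML.Phi; rw [hP]
    rw [e1, alpha_eq]
    have e2 : 2 * ((l + 1 : ℕ) : ℝ) - 1 = 2 * (l : ℝ) + 1 := by push_cast; ring
    rw [e2]; exact h1
  · have h1 := Helper61.ML.len_upper hQ
    have e1 : arcLength P = Helper61.ML.Phi Q := by unfold arcLength Helper61.ML.Phi; rw [hP]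
    rw [e1, alpha_eq]
    have e2 : 2 * ((l + 1 : ℕ) : ℝ) - 1 = 2 * (l : ℝ) + 1 := by push_cast; ring
    rw [e2]; exact h1
  · have h1 := Helper61.ML.al_sq_bound l hl
    rw [alpha_eq]
    refine h1.trans (le_of_eq ?_)
    push_cast
    rw [pow_succ]
    field_simp
    ring

end Pool.Agent.Results.MP_c605fa_an.MinArcAllDegrees
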